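import Pool.Agent.helper19.FR.Spec

/-!
# Row `fr:UNS` (MP_bf63dc): a common length for the progressions with many false cases
-/

set_option autoImplicit false

namespace Pool.Agent.FR

open Finset Real Pool.Agent.AT Pool.Agent.OM Pool.Agent.helper85.FC

/-- `n` blocks of `T` terms -/
theorem UNS_blocks (f : ℕ → ℝ) (T n : ℕ) :
    ∑ k ∈ range (n * T), f k = ∑ j ∈ range n, ∑ i ∈ range T, f (j * T + i) := by
  induction n with
  | zero => simp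
  | succ n ih => rw [Nat.succ_mul, sum_range_add, ih, sum_range_succ]

open Classical in
/-- Row UNS. -/
theorem UNS : UNS_stmt := by
  intro ε R M D hM hD hR
  have hq : 1 ≤ M * D := Nat.mul_pos hM hD
  have h1 : ∀ z : (ℕ × ℕ) × ℕ, ∃ T : ℕ, 1 ≤ T ∧ (z.1 ∈ R → ∀ u : ℤ,
      (NR z.1.1 z.1.2 (M * D) T ((z.2 : ℤ) + ((M * D : ℕ) : ℤ) * u) : ℝ) < (1 - ε) * T) := by
    intro z
    by_cases hz : z.1 ∈ R
    · have h2 := hR z.1 hz
      unfold GoodR at h2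
      push Not at h2
      obtain ⟨T, hT, h3⟩ := h2 (M * D) z.2 hq
      exact ⟨T, hT, fun _ u => h3 u⟩
    · exact ⟨1, le_rfl, fun h => absurd h hz⟩
  choose T hT hN using h1
  refine ⟨∏ z ∈ R ×ˢ range (M * D), T z, Nat.one_le_iff_ne_zero.2
    (prod_ne_zero_iff.2 fun z _ => by have := hT z; omega), ?_⟩
  intro r hr y
  obtain ⟨l, hl⟩ : ∃ l, l = ∏ z ∈ R ×ˢ range (M * D), T z := ⟨_, rfl⟩
  rw [← hl]
  have hl1 : 1 ≤ l := by
    rw [hl]
    exact Nat.one_le_iff_ne_zero.2 (prod_ne_zero_iff.2 fun z _ => by have := hT z; omega)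
  have hl0 : (0 : ℝ) < l := by exact_mod_cast hl1
  obtain ⟨N, hN'⟩ : ∃ N : ℤ, N = (r.1 : ℤ) - r.2 + M * y := ⟨_, rfl⟩
  have hqz : (0 : ℤ) < ((M * D : ℕ) : ℤ) := by exact_mod_cast hq
  obtain ⟨c, hc⟩ : ∃ c : ℕ, (c : ℤ) = N % ((M * D : ℕ) : ℤ) :=
    ⟨(N % ((M * D : ℕ) : ℤ)).toNat, Int.toNat_of_nonneg (Int.emod_nonneg _ hqz.ne')⟩
  have hcq : c < M * D := by
    have := Int.emod_lt_of_pos N hqz
    rw [← hc] at this
    exact_mod_cast this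
  obtain ⟨u, hu⟩ : ∃ u : ℤ, u = N / ((M * D : ℕ) : ℤ) := ⟨_, rfl⟩
  have hNe : N = c + ((M * D : ℕ) : ℤ) * u := by
    rw [hc, hu]
    exact (Int.emod_add_mul_ediv N _).symm
  obtain ⟨T₀, hT₀⟩ : ∃ T₀, T₀ = T (r, c) := ⟨_, rfl⟩
  have hdvd : T₀ ∣ l := by
    rw [hl, hT₀]
    exact dvd_prod_of_mem _ (mem_product.2 ⟨hr, mem_range.2 hcq⟩)
  obtain ⟨n, hn⟩ := hdvd
  have hT1 : 1 ≤ T₀ := by rw [hT₀]; exact hT _
  have hn1 : 1 ≤ n := by
    rcases Nat.eq_zero_or_pos n with h | h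
    · rw [h, mul_zero] at hn
      omega
    · exact h
  -- the true cases
  have hbad : ∀ k : ℕ, bad r.1 r.2 M (y + D * (k : ℤ)) =
      1 - (if TrueCase r.1 r.2 ((c : ℤ) + ((M * D : ℕ) : ℤ) * u + ((M * D : ℕ) : ℤ) * (k : ℤ)) then (1 : ℝ) else 0) := by
    intro k
    unfold bad
    have h4 : (r.1 : ℤ) - r.2 + M * (y + D * (k : ℤ)) =
        (c : ℤ) + ((M * D : ℕ) : ℤ) * u + ((M * D : ℕ) : ℤ) * (k : ℤ) := by
      rw [← hNe, hN']
      push_cast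
      ring
    rw [h4]
    by_cases h5 : TrueCase r.1 r.2 ((c : ℤ) + ((M * D : ℕ) : ℤ) * u + ((M * D : ℕ) : ℤ) * (k : ℤ))
    · rw [if_pos h5, if_pos h5]; norm_num
    · rw [if_neg h5, if_neg h5]; norm_num
  have hsum : ∑ k ∈ range l, (if TrueCase r.1 r.2 ((c : ℤ) + ((M * D : ℕ) : ℤ) * u + ((M * D : ℕ) : ℤ) * (k : ℤ)) then (1 : ℝ) else 0) <
      (1 - ε) * l := by
    have hln : l = n * T₀ := by rw [hn, mul_comm]
    rw [hln, UNS_blocks]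
    have h6 : ∀ j ∈ range n, ∑ i ∈ range T₀, (if TrueCase r.1 r.2 ((c : ℤ) + ((M * D : ℕ) : ℤ) * u +
        ((M * D : ℕ) : ℤ) * ((j * T₀ + i : ℕ) : ℤ)) then (1 : ℝ) else 0) < (1 - ε) * T₀ := by
      intro j _
      have h7 := hN (r, c) hr (u + j * T₀)
      rw [← hT₀] at h7
      refine lt_of_le_of_lt (le_of_eq ?_) h7
      unfold NR
      rw [← sum_boole]
      refine sum_congr rfl fun i _ => ?_
      have h8 : (c : ℤ) + ((M * D : ℕ) : ℤ) * u + ((M * D : ℕ) : ℤ) * ((j * T₀ + i : ℕ) : ℤ) =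
          (c : ℤ) + ((M * D : ℕ) : ℤ) * (u + j * T₀) + ((M * D : ℕ) : ℤ) * (i : ℤ) := by
        push_cast
        ring
      rw [h8]
    refine (sum_lt_sum_of_nonempty ⟨0, mem_range.2 hn1⟩ h6).trans_le (le_of_eq ?_)
    rw [sum_const, card_range, nsmul_eq_mul]
    push_cast
    ring
  unfold mean
  rw [Fintype.card_fin, lt_div_iff₀ hl0]
  have h9 : ∑ k : Fin l, bad r.1 r.2 M (y + D * ((k : ℕ) : ℤ)) = ∑ k ∈ range l, bad r.1 r.2 M (y + D * (k : ℤ)) :=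
    Fin.sum_univ_eq_sum_range (fun k : ℕ => bad r.1 r.2 M (y + D * (k : ℤ))) l
  rw [h9, sum_congr rfl fun k _ => hbad k, sum_sub_distrib, sum_const, card_range, nsmul_eq_mul, mul_one]
  linarith

end Pool.Agent.FR
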